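import Pool.Agent.Lib.helper5.NullLag

/-!
Analytic construction of the mapping degree, first part: the integral `jac` and its invariance.
-/

open MeasureTheory Set Metric Filter Topology
open scoped Manifold ContDiff

namespace Pool.Agent.Lib.helper5

variable {E : Type*} [NormedAddCommGroup E] [NormedSpace ℝ E] [FiniteDimensional ℝ E]

lemma exists_theta : ∃ Θ : E → E, ContDiff ℝ 1 Θ ∧ (∀ w, 0 ≤ (fderiv ℝ Θ w).det) ∧
    0 < (fderiv ℝ Θ 0).det ∧ ∀ w, 1 ≤ ‖w‖ → (fderiv ℝ Θ w).det = 0 := by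
  set d := Module.finrank ℝ E
  let e : E ≃L[ℝ] (Fin d → ℝ) := ContinuousLinearEquiv.ofFinrankEq (by simp [d])
  set c : ℝ := (‖(e.symm : (Fin d → ℝ) →L[ℝ] E)‖ + 1)⁻¹ with hc
  have hN : 0 ≤ ‖(e.symm : (Fin d → ℝ) →L[ℝ] E)‖ := norm_nonneg _
  have hcpos : 0 < c := by positivity
  have hbig : ∀ w : E, 1 ≤ ‖w‖ → c ≤ ‖e w‖ := by
    intro w hw
    have h1 : ‖w‖ ≤ ‖(e.symm : (Fin d → ℝ) →L[ℝ] E)‖ * ‖e w‖ := by
      have := (e.symm : (Fin d → ℝ) →L[ℝ] E).le_opNorm (e w)
      simpa using this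
    rw [hc, inv_le_iff_one_le_mul₀ (by positivity)]
    nlinarith [norm_nonneg (e w)]
  let β : ContDiffBump (0 : ℝ) := ⟨c / 2, c, by positivity, by linarith⟩
  have hβc : Continuous β := β.continuous
  let B : ℝ → ℝ := fun x => ∫ t in (0 : ℝ)..x, β t
  have hB : ∀ x, HasDerivAt B (β x) x := fun x =>
    (hβc.integral_hasStrictDerivAt 0 x).hasDerivAt
  have hBc : ContDiff ℝ 1 B := by
    rw [contDiff_one_iff_deriv]
    refine ⟨fun x => (hB x).differentiableAt, ?_⟩
    have : deriv B = β := funext fun x => (hB x).deriv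
    rw [this]; exact hβc
  let Φ : (Fin d → ℝ) → (Fin d → ℝ) := fun u i => B (u i)
  have hΦc : ContDiff ℝ 1 Φ := contDiff_pi.2 fun i => hBc.comp (contDiff_apply ℝ ℝ i)
  have hΦ : ∀ u, HasFDerivAt Φ (ContinuousLinearMap.pi fun i =>
      (ContinuousLinearMap.toSpanSingleton ℝ (β (u i))).comp (ContinuousLinearMap.proj i)) u := by
    intro u
    rw [hasFDerivAt_pi]
    intro i
    exact HasFDerivAt.comp (g := B) (f := fun f : Fin d → ℝ => f i) u (hB (u i)).hasFDerivAt
      (hasFDerivAt_apply i u)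
  have hdet : ∀ w, (fderiv ℝ (fun w => e.symm (Φ (e w))) w).det = ∏ i, β (e w i) := by
    intro w
    have h1 : HasFDerivAt (fun w => e.symm (Φ (e w)))
        ((e.symm : (Fin d → ℝ) →L[ℝ] E).comp ((ContinuousLinearMap.pi fun i =>
          (ContinuousLinearMap.toSpanSingleton ℝ (β (e w i))).comp
            (ContinuousLinearMap.proj i)).comp (e : E →L[ℝ] (Fin d → ℝ)))) w :=
      e.symm.hasFDerivAt.comp w ((hΦ (e w)).comp w e.hasFDerivAt)
    rw [h1.fderiv]
    have h2 := LinearMap.det_conj ((ContinuousLinearMap.pi fun i =>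
          (ContinuousLinearMap.toSpanSingleton ℝ (β (e w i))).comp
            (ContinuousLinearMap.proj i) : (Fin d → ℝ) →L[ℝ] (Fin d → ℝ)) :
            (Fin d → ℝ) →ₗ[ℝ] (Fin d → ℝ)) e.symm.toLinearEquiv
    have h3 := ContinuousLinearMap.det_pi (ι := Fin d) (R := ℝ) (M := ℝ)
      (fun i => ContinuousLinearMap.toSpanSingleton ℝ (β (e w i)))
    simp only [ContinuousLinearMap.det_toSpanSingleton] at h3
    rw [← h3, ContinuousLinearMap.det, ContinuousLinearMap.det, ← h2]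
    rfl
  refine ⟨fun w => e.symm (Φ (e w)), e.symm.contDiff.comp (hΦc.comp e.contDiff), ?_, ?_, ?_⟩
  · intro w
    rw [hdet]
    exact Finset.prod_nonneg fun i _ => β.nonneg
  · rw [hdet]
    refine Finset.prod_pos fun i _ => ?_
    rw [map_zero, Pi.zero_apply, β.one_of_mem_closedBall (mem_closedBall_self β.rIn_pos.le)]
    exact one_pos
  · intro w hw
    rw [hdet]
    have := hbig w hw
    by_contra hne
    have hall : ∀ i, ‖e w i‖ < c := by
      intro i
      by_contra hi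
      apply hne
      refine Finset.prod_eq_zero (Finset.mem_univ i) (β.zero_of_le_dist ?_)
      simpa [β] using hi
    exact absurd ((pi_norm_lt_iff hcpos).2 hall) (not_lt.2 this)

variable (E) in
/-- A fixed `C^1` map whose Jacobian is a nonnegative bump supported in the unit ball. -/
noncomputable def theta : E → E := (exists_theta (E := E)).choose

/-- The Jacobian of `theta`. -/
noncomputable def omega (w : E) : ℝ := (fderiv ℝ (theta E) w).det

lemma theta_contDiff : ContDiff ℝ 1 (theta E) := (exists_theta (E := E)).choose_spec.1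
lemma omega_nonneg (w : E) : 0 ≤ omega w := (exists_theta (E := E)).choose_spec.2.1 w
lemma omega_zero_pos : 0 < omega (0 : E) := (exists_theta (E := E)).choose_spec.2.2.1
lemma omega_eq_zero {w : E} (hw : 1 ≤ ‖w‖) : omega w = 0 :=
  (exists_theta (E := E)).choose_spec.2.2.2 w hw
lemma omega_continuous : Continuous (omega : E → ℝ) :=
  ContinuousLinearMap.continuous_det.comp (theta_contDiff.continuous_fderiv (by norm_num))

omit [FiniteDimensional ℝ E] in
lemma det_fderiv_comp {G H : E → E} (hG : ContDiff ℝ 1 G) (hH : ContDiff ℝ 1 H) (t : E) :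
    (fderiv ℝ (G ∘ H) t).det = (fderiv ℝ G (H t)).det * (fderiv ℝ H t).det := by
  rw [fderiv_comp t (hG.differentiable (by norm_num) _) (hH.differentiable (by norm_num) _)]
  exact LinearMap.det_comp _ _

omit [FiniteDimensional ℝ E] in
lemma continuous_det_fderiv {H : E → E} (hH : ContDiff ℝ 1 H) :
    Continuous fun t => (fderiv ℝ H t).det :=
  ContinuousLinearMap.continuous_det.comp (hH.continuous_fderiv (by norm_num))

lemma exists_cutoff {s t : Set E} (hs : IsClosed s) (ht : IsClosed t) (hd : Disjoint s t) :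
    ∃ f : E → ℝ, ContDiff ℝ 1 f ∧ (∀ᶠ x in 𝓝ˢ s, f x = 0) ∧ (∀ᶠ x in 𝓝ˢ t, f x = 1) ∧
      ∀ x, f x ∈ Icc (0 : ℝ) 1 := by
  obtain ⟨f, h0, h1, h⟩ := exists_contMDiffMap_zero_one_nhds_of_isClosed (n := 1) 𝓘(ℝ, E) hs ht hd
  exact ⟨f, f.contMDiff.contDiff, h0, h1, h⟩

variable [MeasurableSpace E] [BorelSpace E]

lemma integrableOn_of_bounded {f : E → ℝ} (hf : Continuous f) {U : Set E}
    (hb : Bornology.IsBounded U) (μ : Measure E) [μ.IsAddHaarMeasure] : IntegrableOn f U μ :=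
  (hf.continuousOn.integrableOn_compact hb.isCompact_closure).mono_set subset_closure

lemma setIntegral_det_eq_of_eventuallyEq [Nontrivial E] (μ : Measure E) [μ.IsAddHaarMeasure]
    {D₀ D₁ : E → E} (h₀ : ContDiff ℝ 1 D₀) (h₁ : ContDiff ℝ 1 D₁) {U : Set E} (hU : IsOpen U)
    (hb : Bornology.IsBounded U) (heq : ∀ᶠ x in 𝓝ˢ Uᶜ, D₀ x = D₁ x) :
    ∫ t in U, (fderiv ℝ D₀ t).det ∂μ = ∫ t in U, (fderiv ℝ D₁ t).det ∂μ := by
  obtain ⟨ρ, hρ0, hρ⟩ := hb.subset_ball_lt 0 (0 : E)
  let ξ : ContDiffBump (0 : E) := ⟨ρ, ρ + 1, hρ0, by linarith⟩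
  have hξ1 : ∀ t ∈ U, (ξ : E → ℝ) =ᶠ[𝓝 t] fun _ => 1 := by
    intro t ht
    filter_upwards [isOpen_ball.mem_nhds (hρ ht)] with x hx
    exact ξ.one_of_mem_closedBall (ball_subset_closedBall hx)
  have key : ∀ D : E → E, ContDiff ℝ 1 D →
      ∫ t in U, (fderiv ℝ D t).det ∂μ = - ∫ t in Uᶜ, (fderiv ℝ (fun x => ξ x • D x) t).det ∂μ := by
    intro D hD
    have hc : ContDiff ℝ 1 (fun x => ξ x • D x) := ξ.contDiff.smul hD
    have hs : HasCompactSupport (fun x => ξ x • D x) := ξ.hasCompactSupport.smul_right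
    have h0 := integral_det_fderiv_eq_zero μ hc hs
    have hint : Integrable (fun t => (fderiv ℝ (fun x => ξ x • D x) t).det) μ := by
      refine (continuous_det_fderiv hc).integrable_of_hasCompactSupport ?_
      refine (hs.fderiv ℝ).comp_left (g := fun A : E →L[ℝ] E => A.det) ?_
      simp [ContinuousLinearMap.det]
    rw [← integral_add_compl hU.measurableSet hint] at h0
    have : ∫ t in U, (fderiv ℝ D t).det ∂μ
        = ∫ t in U, (fderiv ℝ (fun x => ξ x • D x) t).det ∂μ := by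
      refine setIntegral_congr_fun hU.measurableSet fun t ht => ?_
      have : (fun x => ξ x • D x) =ᶠ[𝓝 t] D := by
        filter_upwards [hξ1 t ht] with x hx
        rw [hx, one_smul]
      simp only [this.fderiv_eq]
    rw [this]; linarith
  rw [key D₀ h₀, key D₁ h₁]
  congr 1
  refine setIntegral_congr_fun hU.measurableSet.compl fun t ht => ?_
  have : (fun x => ξ x • D₀ x) =ᶠ[𝓝 t] fun x => ξ x • D₁ x := by
    filter_upwards [heq.filter_mono (nhds_le_nhdsSet ht)] with x hx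
    rw [hx]
  simp only [this.fderiv_eq]

/-- The basic integral. -/
noncomputable def jac (H : E → E) (U : Set E) : ℝ :=
  ∫ t in U, omega (H t) * (fderiv ℝ H t).det ∂(Measure.addHaar : Measure E)

lemma jac_eq {H : E → E} (hH : ContDiff ℝ 1 H) (U : Set E) :
    jac H U = ∫ t in U, (fderiv ℝ (theta E ∘ H) t).det ∂(Measure.addHaar : Measure E) := by
  unfold jac
  simp only [det_fderiv_comp theta_contDiff hH, omega]

lemma jac_homotopy [Nontrivial E] {H₀ H₁ : E → E} (h₀ : ContDiff ℝ 1 H₀) (h₁ : ContDiff ℝ 1 H₁)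
    {U : Set E} (hU : IsOpen U) (hb : Bornology.IsBounded U)
    (hseg : ∀ t ∈ frontier U, ∀ τ ∈ Icc (0 : ℝ) 1, 1 < ‖(1 - τ) • H₀ t + τ • H₁ t‖) :
    jac H₀ U = jac H₁ U := by
  set Z : Set E := Prod.fst '' ((closure U ×ˢ Icc (0 : ℝ) 1) ∩
    {p : E × ℝ | ‖(1 - p.2) • H₀ p.1 + p.2 • H₁ p.1‖ ≤ 1}) with hZ
  have hc₀ := h₀.continuous
  have hc₁ := h₁.continuous
  have hZc : IsCompact Z := by
    refine IsCompact.image ?_ continuous_fst
    refine (hb.isCompact_closure.prod isCompact_Icc).inter_right ?_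
    exact isClosed_le (by fun_prop) continuous_const
  have hZU : Disjoint Uᶜ Z := by
    rw [disjoint_left]
    rintro t ht ⟨⟨t', τ⟩, ⟨⟨h1, h2⟩, h3⟩, rfl⟩
    have : t' ∈ frontier U := by
      rw [hU.frontier_eq]; exact ⟨h1, ht⟩
    exact absurd (hseg t' this τ h2) (not_lt.2 h3)
  obtain ⟨χ, hχ, hχ0, hχ1, hχI⟩ := exists_cutoff hU.isClosed_compl hZc.isClosed hZU
  set H : E → E := fun t => (1 - χ t) • H₀ t + χ t • H₁ t with hH
  have hHc : ContDiff ℝ 1 H := ((contDiff_const.sub hχ).smul h₀).add (hχ.smul h₁)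
  have e1 : jac H₀ U = jac H U := by
    rw [jac_eq h₀, jac_eq hHc]
    refine setIntegral_det_eq_of_eventuallyEq _ (theta_contDiff.comp h₀) (theta_contDiff.comp hHc)
      hU hb ?_
    filter_upwards [hχ0] with x hx
    simp [hH, hx]
  rw [e1]
  unfold jac
  refine setIntegral_congr_fun hU.measurableSet fun t ht => ?_
  by_cases htZ : t ∈ Z
  · have : H =ᶠ[𝓝 t] H₁ := by
      filter_upwards [hχ1.filter_mono (nhds_le_nhdsSet htZ)] with x hx
      simp [hH, hx]
    simp only [this.fderiv_eq, this.self_of_nhds]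
  · have hn : ∀ τ ∈ Icc (0 : ℝ) 1, 1 ≤ ‖(1 - τ) • H₀ t + τ • H₁ t‖ := by
      intro τ hτ
      by_contra hlt
      exact htZ ⟨(t, τ), ⟨⟨subset_closure ht, hτ⟩, (not_le.1 hlt).le⟩, rfl⟩
    have a1 : omega (H t) = 0 := omega_eq_zero (hn _ (hχI t))
    have a2 : omega (H₁ t) = 0 := omega_eq_zero (by simpa using hn 1 ⟨zero_le_one, le_rfl⟩)
    simp only [a1, a2, zero_mul]

end Pool.Agent.Lib.helper5
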