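import Pool.Agent.Lib.helper5.DegreeA

/-!
A (non-normalised) Brouwer degree `deg F U` for continuous `F : E → E` and bounded open `U` with
`F ≠ 0` on the frontier of `U`: additivity, homotopy invariance, positivity for the identity and
the vanishing case of the product formula.
-/

open MeasureTheory Set Metric Filter Topology

namespace Pool.Agent.Lib.helper5

variable {E : Type*} [NormedAddCommGroup E] [NormedSpace ℝ E] [FiniteDimensional ℝ E]

/-- `H` is a `C^1` map that approximates a positive multiple of `F` on the frontier of `U`. -/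
def Adm (F H : E → E) (U : Set E) : Prop :=
  ContDiff ℝ 1 H ∧ ∃ lam : ℝ, 0 < lam ∧ ∀ t ∈ frontier U, ‖H t - lam • F t‖ + 1 < lam * ‖F t‖

omit [NormedSpace ℝ E] [FiniteDimensional ℝ E] in
lemma exists_lower_bound {X : Type*} [TopologicalSpace X] {F : X → E} (hF : Continuous F)
    {K : Set X} (hK : IsCompact K) (h : ∀ t ∈ K, F t ≠ 0) : ∃ c : ℝ, 0 < c ∧ ∀ t ∈ K, c ≤ ‖F t‖ :=
  hK.exists_forall_le' hF.norm.continuousOn fun t ht => norm_pos_iff.2 (h t ht)

lemma exists_approx {F : E → E} (hF : Continuous F) {ε : ℝ} (hε : 0 < ε) :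
    ∃ H : E → E, ContDiff ℝ 1 H ∧ ∀ t, ‖H t - F t‖ < ε := by
  obtain ⟨g, hg, h, -⟩ := hF.exists_contDiff_approx 1 (ε := fun _ => ε) continuous_const
    fun _ => hε
  exact ⟨g, hg, fun t => by simpa [dist_eq_norm] using h t⟩

lemma isCompact_frontier_of_bounded {U : Set E} (hb : Bornology.IsBounded U) :
    IsCompact (frontier U) :=
  hb.isCompact_closure.of_isClosed_subset isClosed_frontier frontier_subset_closure

variable [MeasurableSpace E] [BorelSpace E]

open Classical in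
/-- The degree (up to a positive normalising constant). -/
noncomputable def deg (F : E → E) (U : Set E) : ℝ :=
  if h : ∃ H, Adm F H U then jac h.choose U else 0

variable [Nontrivial E]

lemma jac_eq_of_adm {F H₀ H₁ : E → E} {U : Set E} (hU : IsOpen U) (hb : Bornology.IsBounded U)
    (h₀ : Adm F H₀ U) (h₁ : Adm F H₁ U) : jac H₀ U = jac H₁ U := by
  obtain ⟨c₀, l₀, hl₀, h₀⟩ := h₀
  obtain ⟨c₁, l₁, hl₁, h₁⟩ := h₁
  refine jac_homotopy c₀ c₁ hU hb fun t ht τ hτ => ?_
  have a₀ := h₀ t ht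
  have a₁ := h₁ t ht
  have hτ0 := hτ.1
  have hτ1 : 0 ≤ 1 - τ := sub_nonneg.2 hτ.2
  have e : ((1 - τ) * l₀ + τ * l₁) • F t = ((1 - τ) • H₀ t + τ • H₁ t)
      - (1 - τ) • (H₀ t - l₀ • F t) - τ • (H₁ t - l₁ • F t) := by module
  have hn : ‖((1 - τ) * l₀ + τ * l₁) • F t‖ = ((1 - τ) * l₀ + τ * l₁) * ‖F t‖ := by
    rw [norm_smul, Real.norm_eq_abs, abs_of_nonneg (by positivity)]
  have hle : ‖((1 - τ) * l₀ + τ * l₁) • F t‖ ≤ ‖(1 - τ) • H₀ t + τ • H₁ t‖
      + (1 - τ) * ‖H₀ t - l₀ • F t‖ + τ * ‖H₁ t - l₁ • F t‖ := by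
    rw [e]
    refine (norm_sub_le _ _).trans (add_le_add ((norm_sub_le _ _).trans (add_le_add le_rfl ?_)) ?_)
    · rw [norm_smul, Real.norm_eq_abs, abs_of_nonneg hτ1]
    · rw [norm_smul, Real.norm_eq_abs, abs_of_nonneg hτ0]
  rw [hn] at hle
  rcases hτ0.eq_or_lt with h | h
  · subst h
    simp only [sub_zero, one_mul, zero_mul, add_zero] at hle ⊢
    linarith
  · have b₀ := mul_le_mul_of_nonneg_left a₀.le hτ1
    have b₁ := mul_lt_mul_of_pos_left a₁ h
    nlinarith

lemma deg_eq_jac {F H : E → E} {U : Set E} (hU : IsOpen U) (hb : Bornology.IsBounded U)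
    (h : Adm F H U) : deg F U = jac H U := by
  have hex : ∃ H, Adm F H U := ⟨H, h⟩
  rw [deg, dif_pos hex]
  exact jac_eq_of_adm hU hb hex.choose_spec h

omit [FiniteDimensional ℝ E] [MeasurableSpace E] [BorelSpace E] [Nontrivial E] in
lemma adm_of_close {F H : E → E} {U : Set E} (hH : ContDiff ℝ 1 H) {c : ℝ} (hc : 0 < c)
    (hF : ∀ t ∈ frontier U, c ≤ ‖F t‖) (hclose : ∀ t ∈ frontier U, ‖H t - (4 / c) • F t‖ < 3) :
    Adm F H U := by
  refine ⟨hH, 4 / c, by positivity, fun t ht => ?_⟩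
  have h1 := hclose t ht
  have h2 : 4 / c * c ≤ 4 / c * ‖F t‖ := mul_le_mul_of_nonneg_left (hF t ht) (by positivity)
  rw [div_mul_cancel₀ _ hc.ne'] at h2
  linarith

omit [FiniteDimensional ℝ E] [MeasurableSpace E] [BorelSpace E] [Nontrivial E] in
lemma norm_ge_of_close {a b : E} {c : ℝ} (hc : 0 < c) (hb : c ≤ ‖b‖) {r : ℝ}
    (h : ‖a - (4 / c) • b‖ < r) : 4 - r < ‖a‖ := by
  have h2 : 4 / c * c ≤ 4 / c * ‖b‖ := mul_le_mul_of_nonneg_left hb (by positivity)
  rw [div_mul_cancel₀ _ hc.ne'] at h2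
  have h3 : ‖(4 / c) • b‖ = 4 / c * ‖b‖ := by
    rw [norm_smul, Real.norm_eq_abs, abs_of_pos (by positivity)]
  have h4 : ‖(4 / c) • b‖ ≤ ‖a‖ + ‖a - (4 / c) • b‖ := by
    have := norm_sub_le a (a - (4 / c) • b)
    simpa using this
  linarith

/-- Additivity and excision. -/
theorem deg_sum {F : E → E} (hF : Continuous F) {U : Set E} (hU : IsOpen U)
    (hb : Bornology.IsBounded U) {ι : Type*} (s : Finset ι) (W : ι → Set E)
    (hWo : ∀ i ∈ s, IsOpen (W i)) (hWU : ∀ i ∈ s, W i ⊆ U)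
    (hdisj : (s : Set ι).Pairwise (Function.onFun Disjoint W))
    (hz : ∀ t ∈ closure U, F t = 0 → ∃ i ∈ s, t ∈ W i) :
    deg F U = ∑ i ∈ s, deg F (W i) := by
  set W' : Set E := ⋃ i ∈ s, W i with hW'
  have hW'o : IsOpen W' := isOpen_biUnion hWo
  have hK : IsCompact (closure U \ W') := hb.isCompact_closure.diff hW'o
  obtain ⟨c, hc, hcK⟩ := exists_lower_bound hF hK fun t ht h0 => by
    obtain ⟨i, hi, hti⟩ := hz t ht.1 h0
    exact ht.2 (mem_biUnion hi hti)
  obtain ⟨H, hH, hHF⟩ := exists_approx (F := fun t => (4 / c) • F t) (hF.const_smul _) one_pos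
  have hfrU : frontier U ⊆ closure U \ W' := by
    intro t ht
    rw [hU.frontier_eq] at ht
    refine ⟨ht.1, fun h => ?_⟩
    obtain ⟨i, hi, hti⟩ := mem_iUnion₂.1 h
    exact ht.2 (hWU i hi hti)
  have hfrW : ∀ i ∈ s, frontier (W i) ⊆ closure U \ W' := by
    intro i hi t ht
    rw [(hWo i hi).frontier_eq] at ht
    refine ⟨closure_mono (hWU i hi) ht.1, fun h => ?_⟩
    obtain ⟨j, hj, htj⟩ := mem_iUnion₂.1 h
    by_cases hij : i = j
    · exact ht.2 (hij ▸ htj)
    · have hd : Disjoint (W i) (W j) := hdisj hi hj hij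
      exact disjoint_left.1 (hd.closure_left (hWo j hj)) ht.1 htj
  rw [deg_eq_jac hU hb (adm_of_close hH hc (fun t ht => hcK t (hfrU ht))
    fun t _ => (hHF t).trans (by norm_num))]
  have : ∀ i ∈ s, deg F (W i) = jac H (W i) := fun i hi =>
    deg_eq_jac (hWo i hi) (hb.subset (hWU i hi)) (adm_of_close hH hc
      (fun t ht => hcK t (hfrW i hi ht)) fun t _ => (hHF t).trans (by norm_num))
  rw [Finset.sum_congr rfl this]
  unfold jac
  have hcont : Continuous fun t => omega (H t) * (fderiv ℝ H t).det :=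
    (omega_continuous.comp hH.continuous).mul (continuous_det_fderiv hH)
  rw [← integral_biUnion_finset s (fun i hi => (hWo i hi).measurableSet) hdisj
    fun i hi => integrableOn_of_bounded hcont (hb.subset (hWU i hi)) _]
  refine setIntegral_eq_of_subset_of_forall_sdiff_eq_zero hU.measurableSet
    (iUnion₂_subset hWU) fun t ht => ?_
  have h1 := norm_ge_of_close hc (hcK t ⟨subset_closure ht.1, ht.2⟩) (hHF t)
  rw [omega_eq_zero (by linarith), zero_mul]

/-- Excision. -/
theorem deg_excise {F : E → E} (hF : Continuous F) {U W : Set E} (hU : IsOpen U)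
    (hb : Bornology.IsBounded U) (hW : IsOpen W) (hWU : W ⊆ U)
    (hz : ∀ t ∈ closure U, F t = 0 → t ∈ W) : deg F U = deg F W := by
  have := deg_sum hF hU hb ({()} : Finset Unit) (fun _ => W) (fun _ _ => hW) (fun _ _ => hWU)
    (by simp) fun t ht h0 => ⟨(), by simp, hz t ht h0⟩
  simpa using this

/-- Existence of zeros. -/
theorem exists_zero_of_deg_ne_zero {F : E → E} (hF : Continuous F) {U : Set E} (hU : IsOpen U)
    (hb : Bornology.IsBounded U) (hd : deg F U ≠ 0) : ∃ t ∈ closure U, F t = 0 := by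
  by_contra h
  push Not at h
  apply hd
  have := deg_sum hF hU hb (∅ : Finset Unit) (fun _ => U) (by simp) (by simp) (by simp)
    fun t ht h0 => absurd h0 (h t ht)
  simpa using this

/-- Invariance under straight-line homotopies. -/
theorem deg_homotopy {F G : E → E} (hF : Continuous F) (hG : Continuous G) {U : Set E}
    (hU : IsOpen U) (hb : Bornology.IsBounded U)
    (h : ∀ t ∈ frontier U, ∀ τ ∈ Icc (0 : ℝ) 1, (1 - τ) • F t + τ • G t ≠ 0) :
    deg F U = deg G U := by
  have hK : IsCompact (frontier U ×ˢ Icc (0 : ℝ) 1) :=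
    (isCompact_frontier_of_bounded hb).prod isCompact_Icc
  obtain ⟨c, hc, hcK⟩ := exists_lower_bound
    (F := fun p : E × ℝ => (1 - p.2) • F p.1 + p.2 • G p.1) (by fun_prop) hK
    fun p hp => h p.1 hp.1 p.2 hp.2
  obtain ⟨H₀, hH₀, h₀⟩ := exists_approx (F := fun t => (4 / c) • F t) (hF.const_smul _) one_pos
  obtain ⟨H₁, hH₁, h₁⟩ := exists_approx (F := fun t => (4 / c) • G t) (hG.const_smul _) one_pos
  have hcF : ∀ t ∈ frontier U, c ≤ ‖F t‖ := fun t ht => by
    simpa using hcK (t, 0) ⟨ht, le_rfl, zero_le_one⟩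
  have hcG : ∀ t ∈ frontier U, c ≤ ‖G t‖ := fun t ht => by
    simpa using hcK (t, 1) ⟨ht, zero_le_one, le_rfl⟩
  rw [deg_eq_jac hU hb (adm_of_close hH₀ hc hcF fun t _ => (h₀ t).trans (by norm_num)),
    deg_eq_jac hU hb (adm_of_close hH₁ hc hcG fun t _ => (h₁ t).trans (by norm_num))]
  refine jac_homotopy hH₀ hH₁ hU hb fun t ht τ hτ => ?_
  have hb' := hcK (t, τ) ⟨ht, hτ⟩
  have hτ1 : 0 ≤ 1 - τ := sub_nonneg.2 hτ.2
  have hcl : ‖((1 - τ) • H₀ t + τ • H₁ t) - (4 / c) • ((1 - τ) • F t + τ • G t)‖ < 2 := by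
    have e : ((1 - τ) • H₀ t + τ • H₁ t) - (4 / c) • ((1 - τ) • F t + τ • G t)
        = (1 - τ) • (H₀ t - (4 / c) • F t) + τ • (H₁ t - (4 / c) • G t) := by module
    rw [e]
    refine (norm_add_le _ _).trans_lt ?_
    rw [norm_smul, norm_smul, Real.norm_eq_abs, Real.norm_eq_abs, abs_of_nonneg hτ1,
      abs_of_nonneg hτ.1]
    have b₀ := mul_le_mul_of_nonneg_left (h₀ t).le hτ1
    have b₁ := mul_le_mul_of_nonneg_left (h₁ t).le hτ.1
    linarith
  have := norm_ge_of_close hc hb' hcl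
  linarith

/-- The degree of a translate of the identity is positive. -/
theorem deg_id_pos {U : Set E} (hU : IsOpen U) (hb : Bornology.IsBounded U) {b : E}
    (hbU : b ∈ U) : 0 < deg (fun t => t - b) U := by
  obtain ⟨c, hc, hcK⟩ := exists_lower_bound (F := fun t : E => t - b) (by fun_prop)
    (isCompact_frontier_of_bounded hb) fun t ht h0 => by
      rw [hU.frontier_eq] at ht
      exact ht.2 (sub_eq_zero.1 h0 ▸ hbU)
  have hH : ContDiff ℝ 1 fun t : E => (4 / c) • (t - b) := by fun_prop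
  rw [deg_eq_jac hU hb (adm_of_close hH hc hcK fun t _ => by simp)]
  unfold jac
  have hfd : ∀ t : E, (fderiv ℝ (fun t : E => (4 / c) • (t - b)) t).det
      = (4 / c) ^ Module.finrank ℝ E := by
    intro t
    have : HasFDerivAt (fun t : E => (4 / c) • (t - b)) ((4 / c) • ContinuousLinearMap.id ℝ E) t :=
      ((hasFDerivAt_id t).sub_const b).const_smul _
    rw [this.fderiv, ContinuousLinearMap.det, ContinuousLinearMap.toLinearMap_smul, LinearMap.det_smul]
    simp
  simp only [hfd]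
  have hcont : Continuous fun t : E => omega ((4 / c) • (t - b)) * (4 / c) ^ Module.finrank ℝ E :=
    (omega_continuous.comp hH.continuous).mul continuous_const
  rw [setIntegral_pos_iff_support_of_nonneg_ae _ (integrableOn_of_bounded hcont hb _)]
  · refine IsOpen.measure_pos _ (hcont.isOpen_support.inter hU) ⟨b, ?_, hbU⟩
    simp only [Function.mem_support, sub_self, smul_zero]
    exact (mul_pos omega_zero_pos (by positivity)).ne'
  · exact Eventually.of_forall fun t => mul_nonneg (omega_nonneg _) (by positivity)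

end Pool.Agent.Lib.helper5
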