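import Pool.Agent.Lib.helper5.DegreeB

/-!
The vanishing case of the product formula for the degree.
-/

open MeasureTheory Set Metric Filter Topology

namespace Pool.Agent.Lib.helper5

variable {E : Type*} [NormedAddCommGroup E] [NormedSpace ℝ E] [FiniteDimensional ℝ E]

omit [FiniteDimensional ℝ E] in
lemma det_fderiv_smul_sub {H : E → E} (hH : ContDiff ℝ 1 H) (lam : ℝ) (a t : E) :
    (fderiv ℝ (fun t => lam • (H t - a)) t).det
      = lam ^ Module.finrank ℝ E * (fderiv ℝ H t).det := by
  have : HasFDerivAt (fun t => lam • (H t - a)) (lam • fderiv ℝ H t) t :=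
    ((hH.differentiable (by norm_num) t).hasFDerivAt.sub_const a).const_smul _
  rw [this.fderiv, ContinuousLinearMap.det, ContinuousLinearMap.toLinearMap_smul,
    LinearMap.det_smul]

lemma omega_scaled_support {lam : ℝ} (hlam : 0 < lam) (x : E) :
    HasCompactSupport fun a : E => omega (lam • (x - a)) := by
  refine HasCompactSupport.intro (isCompact_closedBall x lam⁻¹) fun a ha => ?_
  apply omega_eq_zero
  rw [mem_closedBall, not_le, dist_comm, dist_eq_norm] at ha
  rw [norm_smul, Real.norm_eq_abs, abs_of_pos hlam]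
  have := mul_lt_mul_of_pos_left ha hlam
  rw [mul_inv_cancel₀ hlam.ne'] at this
  exact this.le

variable [MeasurableSpace E] [BorelSpace E]

lemma integral_eta_eq_zero {H : E → E} (hH : ContDiff ℝ 1 H) {U : Set E} (hU : IsOpen U)
    (hb : Bornology.IsBounded U) {η : E → ℝ} (hη : Continuous η) {r lam0 : ℝ}
    (hηr : ∀ a, r < ‖a‖ → η a = 0)
    (h : ∀ lam, lam0 ≤ lam → ∀ a : E, ‖a‖ ≤ r → jac (fun t => lam • (H t - a)) U = 0) :
    ∫ t in U, η (H t) * (fderiv ℝ H t).det ∂(Measure.addHaar : Measure E) = 0 := by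
  set μ : Measure E := Measure.addHaar with hμ
  have hηs : HasCompactSupport η := by
    refine HasCompactSupport.intro (isCompact_closedBall (0 : E) r) fun a ha => hηr a ?_
    simpa using ha
  have hηu : UniformContinuous η := hηs.uniformContinuous_of_continuous hη
  have hdet := continuous_det_fderiv hH
  have hHc := hH.continuous
  have hωc : Continuous (omega : E → ℝ) := omega_continuous
  set A : ℝ := ∫ t in U, |(fderiv ℝ H t).det| ∂μ with hA
  have hA0 : 0 ≤ A := integral_nonneg fun t => abs_nonneg _
  have key : ∀ ε : ℝ, 0 < ε → |∫ t in U, η (H t) * (fderiv ℝ H t).det ∂μ| ≤ ε * A := by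
    intro ε hε
    obtain ⟨ρ, hρ, hρη⟩ := Metric.uniformContinuous_iff.1 hηu ε hε
    set lam : ℝ := max lam0 (2 / ρ) with hlam
    have hlam2 : 2 / ρ ≤ lam := le_max_right _ _
    have hlampos : 0 < lam := lt_of_lt_of_le (by positivity) hlam2
    set κ : ℝ := ∫ a, omega (lam • a) ∂μ with hκ
    have hκx : ∀ x : E, ∫ a, omega (lam • (x - a)) ∂μ = κ := fun x =>
      integral_sub_left_eq_self (fun a => omega (lam • a)) μ x
    have hint : ∀ x : E, Integrable (fun a : E => omega (lam • (x - a))) μ := fun x =>
      Continuous.integrable_of_hasCompactSupport (by fun_prop) (omega_scaled_support hlampos x)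
    have hκpos : 0 < κ := by
      rw [← hκx 0, integral_pos_iff_support_of_nonneg (fun a => omega_nonneg _) (hint 0)]
      refine IsOpen.measure_pos _ (Continuous.isOpen_support (by fun_prop)) ⟨0, ?_⟩
      simpa using omega_zero_pos.ne'
    -- the averaged function
    set Φ : E → ℝ := fun x => ∫ a in closedBall (0 : E) r, η a * omega (lam • (x - a)) ∂μ with hΦ
    have hΦ' : ∀ x, Φ x = ∫ a, η a * omega (lam • (x - a)) ∂μ := fun x =>
      setIntegral_eq_integral_of_forall_compl_eq_zero fun a ha => by
        rw [hηr a (by simpa using ha), zero_mul]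
    have hΦest : ∀ x, |Φ x - η x * κ| ≤ ε * κ := by
      intro x
      have i1 : Integrable (fun a : E => η a * omega (lam • (x - a))) μ :=
        Continuous.integrable_of_hasCompactSupport (by fun_prop) hηs.mul_right
      rw [hΦ', ← hκx x, ← integral_const_mul, ← integral_sub i1 ((hint x).const_mul _),
        ← integral_const_mul, ← Real.norm_eq_abs]
      refine norm_integral_le_of_norm_le ((hint x).const_mul _) (Eventually.of_forall fun a => ?_)
      rw [← sub_mul, norm_mul, Real.norm_eq_abs, Real.norm_eq_abs, abs_of_nonneg (omega_nonneg _)]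
      by_cases hxa : dist a x < ρ
      · have := hρη hxa
        rw [Real.dist_eq] at this
        exact mul_le_mul_of_nonneg_right this.le (omega_nonneg _)
      · have : omega (lam • (x - a)) = 0 := by
          apply omega_eq_zero
          rw [norm_smul, Real.norm_eq_abs, abs_of_pos hlampos, ← dist_eq_norm, dist_comm]
          have h1 : 2 / ρ * ρ ≤ lam * dist a x :=
            mul_le_mul hlam2 (not_lt.1 hxa) hρ.le hlampos.le
          rw [div_mul_cancel₀ _ hρ.ne'] at h1
          linarith
        rw [this, mul_zero, mul_zero]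
    -- Fubini
    have hprod : Integrable (Function.uncurry fun (a t : E) =>
        η a * (omega (lam • (H t - a)) * (fderiv ℝ H t).det))
        ((μ.restrict (closedBall (0 : E) r)).prod (μ.restrict U)) := by
      rw [Measure.prod_restrict]
      have hc : Continuous (Function.uncurry fun (a t : E) =>
          η a * (omega (lam • (H t - a)) * (fderiv ℝ H t).det)) := by
        refine (hη.comp continuous_fst).mul (Continuous.mul ?_ (hdet.comp continuous_snd))
        exact hωc.comp (by fun_prop)
      exact (hc.continuousOn.integrableOn_compact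
        ((isCompact_closedBall (0 : E) r).prod hb.isCompact_closure)).mono_set
        (prod_mono Subset.rfl subset_closure)
    have hswap := integral_integral_swap hprod
    have hleft : ∫ a in closedBall (0 : E) r, ∫ t in U,
        η a * (omega (lam • (H t - a)) * (fderiv ℝ H t).det) ∂μ ∂μ = 0 := by
      refine setIntegral_eq_zero_of_forall_eq_zero fun a ha => ?_
      rw [integral_const_mul]
      have h1 := h lam (le_max_left _ _) a (by simpa using ha)
      unfold jac at h1
      simp only [det_fderiv_smul_sub hH] at h1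
      have h2 : ∫ t in U, omega (lam • (H t - a)) * (lam ^ Module.finrank ℝ E *
          (fderiv ℝ H t).det) ∂μ = lam ^ Module.finrank ℝ E *
          ∫ t in U, omega (lam • (H t - a)) * (fderiv ℝ H t).det ∂μ := by
        rw [← integral_const_mul]
        congr 1
        funext t
        ring
      rw [h2] at h1
      rcases mul_eq_zero.1 h1 with h3 | h3
      · exact absurd h3 (pow_pos hlampos _).ne'
      · rw [h3, mul_zero]
    have hright : ∫ t in U, Φ (H t) * (fderiv ℝ H t).det ∂μ = 0 := by
      rw [← hleft, hswap]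
      congr 1
      funext t
      rw [hΦ, ← integral_mul_const]
      congr 1
      funext a
      ring
    have iΦ : Integrable (fun t => Φ (H t) * (fderiv ℝ H t).det) (μ.restrict U) := by
      have := hprod.integral_prod_right
      refine this.congr (Eventually.of_forall fun t => ?_)
      simp only [Function.uncurry]
      rw [hΦ, ← integral_mul_const]
      congr 1
      funext a
      ring
    have iη : Integrable (fun t => η (H t) * (fderiv ℝ H t).det) (μ.restrict U) :=
      integrableOn_of_bounded (by fun_prop) hb _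
    have iA : Integrable (fun t => |(fderiv ℝ H t).det|) (μ.restrict U) :=
      integrableOn_of_bounded (by fun_prop) hb _
    have h5 : κ * ∫ t in U, η (H t) * (fderiv ℝ H t).det ∂μ
        = - ∫ t in U, (Φ (H t) - η (H t) * κ) * (fderiv ℝ H t).det ∂μ := by
      have : ∫ t in U, (Φ (H t) - η (H t) * κ) * (fderiv ℝ H t).det ∂μ
          = ∫ t in U, Φ (H t) * (fderiv ℝ H t).det ∂μ
            - ∫ t in U, κ * (η (H t) * (fderiv ℝ H t).det) ∂μ := by
        rw [← integral_sub iΦ (iη.const_mul κ)]
        congr 1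
        funext t
        ring
      rw [this, hright, integral_const_mul]
      ring
    have h6 : |∫ t in U, (Φ (H t) - η (H t) * κ) * (fderiv ℝ H t).det ∂μ| ≤ ε * κ * A := by
      rw [hA, ← integral_const_mul, ← Real.norm_eq_abs]
      refine norm_integral_le_of_norm_le (iA.const_mul _) (Eventually.of_forall fun t => ?_)
      rw [norm_mul, Real.norm_eq_abs, Real.norm_eq_abs]
      exact mul_le_mul_of_nonneg_right (hΦest _) (abs_nonneg _)
    have h7 : κ * |∫ t in U, η (H t) * (fderiv ℝ H t).det ∂μ| ≤ κ * (ε * A) := by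
      rw [← abs_of_pos hκpos, ← abs_mul, h5, abs_neg, abs_of_pos hκpos]
      linarith
    exact le_of_mul_le_mul_left h7 hκpos
  have : |∫ t in U, η (H t) * (fderiv ℝ H t).det ∂μ| ≤ 0 := by
    refine le_of_forall_pos_le_add fun ε hε => ?_
    have h1 := key (ε / (A + 1)) (by positivity)
    have h2 : ε / (A + 1) * A ≤ ε := by
      rw [div_mul_eq_mul_div, div_le_iff₀ (by positivity)]
      nlinarith
    linarith
  exact abs_nonpos_iff.1 this

variable [Nontrivial E]

/-- Vanishing case of the product formula. -/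
theorem deg_comp_eq_zero {F g : E → E} (hF : Continuous F) (hg : Continuous g) {U V : Set E}
    (hU : IsOpen U) (hb : Bornology.IsBounded U) (hV : IsOpen V) (hVU : V ⊆ U) {c : ℝ}
    (hfr : ∀ t ∈ frontier U, c < ‖F t‖)
    (hz : ∀ t ∈ closure V, g (F t) = 0 → ‖F t‖ ≤ c ∧ ∀ t' ∈ closure U, F t' = F t → t' ∈ V)
    (hd : deg F U = 0) : deg (fun t => g (F t)) V = 0 := by
  have hbV : Bornology.IsBounded V := hb.subset hVU
  obtain ⟨c', hcc', hc'⟩ := (isCompact_frontier_of_bounded hb).exists_forall_le'
    hF.norm.continuousOn hfr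
  set r : ℝ := (c + c') / 2 with hr
  set K1 : Set E := F '' (closure V ∩ {t | g (F t) = 0}) with hK1
  set K2 : Set E := F '' (closure U \ V) with hK2
  have hK1c : IsCompact K1 :=
    (hbV.isCompact_closure.inter_right (isClosed_eq (hg.comp hF) continuous_const)).image hF
  have hK2c : IsCompact K2 := (hb.isCompact_closure.diff hV).image hF
  have hcl : IsClosed (K2 ∪ {w : E | r ≤ ‖w‖}) :=
    hK2c.isClosed.union (isClosed_le continuous_const continuous_norm)
  have hdisj : Disjoint (K2 ∪ {w : E | r ≤ ‖w‖}) K1 := by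
    rw [disjoint_right]
    rintro w ⟨t, ⟨ht, ht0⟩, rfl⟩ hw
    obtain ⟨h1, h2⟩ := hz t ht ht0
    rcases hw with ⟨t', ht', e⟩ | hw
    · exact ht'.2 (h2 t' ht'.1 e)
    · have hw' : r ≤ ‖F t‖ := hw
      linarith
  obtain ⟨ϑ, hϑ, hϑ0, hϑ1, -⟩ := exists_cutoff hcl hK1c.isClosed hdisj
  obtain ⟨O1, hO1, hO1K, hO1ϑ⟩ := mem_nhdsSet_iff_exists.1 hϑ1
  obtain ⟨O2, hO2, hO2K, hO2ϑ⟩ := mem_nhdsSet_iff_exists.1 hϑ0
  obtain ⟨κ1, hκ1, hκ1O⟩ := hK1c.exists_thickening_subset_open hO1 hO1K
  obtain ⟨κ2, hκ2, hκ2O⟩ := hK2c.exists_thickening_subset_open hO2 (subset_union_left.trans hO2K)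
  set Q : Set E := closure V \ F ⁻¹' thickening (κ1 / 2) K1 with hQ
  have hQc : IsCompact Q := hbV.isCompact_closure.diff (isOpen_thickening.preimage hF)
  obtain ⟨c3, hc3, hc3Q⟩ := exists_lower_bound (F := fun t => g (F t)) (hg.comp hF) hQc
    fun t ht h0 => ht.2 (self_subset_thickening (by positivity) _ ⟨t, ⟨ht.1, h0⟩, rfl⟩)
  obtain ⟨g', hg', hgg⟩ := exists_approx (F := fun w => (4 / c3) • g w) (hg.const_smul _) one_pos
  obtain ⟨ρ, hρ⟩ := (hbV.isCompact_closure.image hF).isBounded.subset_closedBall (0 : E)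
  obtain ⟨ε1, hε1, hε1g⟩ := Metric.uniformContinuousOn_iff.1
    ((isCompact_closedBall (0 : E) (ρ + 1)).uniformContinuousOn_of_continuous hg.continuousOn)
    (c3 / 4) (by positivity)
  set ε : ℝ := min (min (min ε1 1) (min (κ1 / 2) κ2)) ((c' - c) / 4) with hε
  have hεpos : 0 < ε := by
    have : 0 < (c' - c) / 4 := by linarith
    positivity
  have e1 : ε ≤ ε1 := (min_le_left _ _).trans ((min_le_left _ _).trans (min_le_left _ _))
  have e2 : ε ≤ 1 := (min_le_left _ _).trans ((min_le_left _ _).trans (min_le_right _ _))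
  have e3 : ε ≤ κ1 / 2 := (min_le_left _ _).trans ((min_le_right _ _).trans (min_le_left _ _))
  have e4 : ε ≤ κ2 := (min_le_left _ _).trans ((min_le_right _ _).trans (min_le_right _ _))
  have e5 : ε ≤ (c' - c) / 4 := min_le_right _ _
  obtain ⟨H, hH, hHF⟩ := exists_approx hF hεpos
  have hclose : ∀ t ∈ closure V, ‖g' (H t) - (4 / c3) • g (F t)‖ < 2 := by
    intro t ht
    have h1 : F t ∈ closedBall (0 : E) ρ := hρ ⟨t, ht, rfl⟩
    rw [mem_closedBall_zero_iff] at h1
    have h2 : H t ∈ closedBall (0 : E) (ρ + 1) := by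
      rw [mem_closedBall_zero_iff]
      have := norm_add_le (H t - F t) (F t)
      rw [sub_add_cancel] at this
      linarith [hHF t]
    have h3 := hε1g (H t) h2 (F t) (by rw [mem_closedBall_zero_iff]; linarith)
      (by rw [dist_eq_norm]; linarith [hHF t])
    rw [dist_eq_norm] at h3
    have e : g' (H t) - (4 / c3) • g (F t)
        = (g' (H t) - (4 / c3) • g (H t)) + (4 / c3) • (g (H t) - g (F t)) := by module
    rw [e]
    refine (norm_add_le _ _).trans_lt ?_
    rw [norm_smul, Real.norm_eq_abs, abs_of_pos (by positivity)]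
    have h4 : 4 / c3 * ‖g (H t) - g (F t)‖ ≤ 4 / c3 * (c3 / 4) :=
      mul_le_mul_of_nonneg_left h3.le (by positivity)
    have h5 : 4 / c3 * (c3 / 4) = 1 := by field_simp
    linarith [hgg (H t)]
  have hfrQ : frontier V ⊆ Q := by
    intro t ht
    rw [hV.frontier_eq] at ht
    refine ⟨ht.1, fun h => ?_⟩
    have h1 : ϑ (F t) = 1 := hO1ϑ (hκ1O (thickening_mono (by linarith) _ h))
    have h2 : ϑ (F t) = 0 := hO2ϑ (hO2K (Or.inl ⟨t, ⟨closure_mono hVU ht.1, ht.2⟩, rfl⟩))
    rw [h1] at h2
    exact one_ne_zero h2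
  have hadm : Adm (fun t => g (F t)) (g' ∘ H) V :=
    adm_of_close (hg'.comp hH) hc3 (fun t ht => hc3Q t (hfrQ ht))
      fun t ht => (hclose t (frontier_subset_closure ht)).trans (by norm_num)
  rw [deg_eq_jac hV hbV hadm]
  set η : E → ℝ := fun w => ϑ w * (omega (g' w) * (fderiv ℝ g' w).det) with hη
  have hηc : Continuous η :=
    hϑ.continuous.mul ((omega_continuous.comp hg'.continuous).mul (continuous_det_fderiv hg'))
  have hV0 : ∫ t in U, η (H t) * (fderiv ℝ H t).det ∂(Measure.addHaar : Measure E) = 0 := by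
    refine integral_eta_eq_zero hH hU hb hηc (r := r) (lam0 := 8 / (c' - c)) ?_ ?_
    · intro a ha
      have : ϑ a = 0 := hO2ϑ (hO2K (Or.inr ha.le))
      simp only [hη, this, zero_mul]
    · intro lam hlam a ha
      have hcc : 0 < c' - c := by linarith
      have hlampos : 0 < lam := lt_of_lt_of_le (by positivity) hlam
      rw [← hd]
      refine (deg_eq_jac hU hb ⟨by fun_prop, lam, hlampos, fun t ht => ?_⟩).symm
      have e : lam • (H t - a) - lam • F t = lam • ((H t - F t) - a) := by module
      rw [e, norm_smul, Real.norm_eq_abs, abs_of_pos hlampos]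
      have h1 : ‖H t - F t - a‖ ≤ ε + r := (norm_sub_le _ _).trans (by linarith [hHF t])
      have h2 := mul_le_mul_of_nonneg_left h1 hlampos.le
      have h3 := mul_le_mul_of_nonneg_left (hc' t ht) hlampos.le
      have h4 : 8 / (c' - c) * (c' - c) ≤ lam * (c' - c) := mul_le_mul_of_nonneg_right hlam hcc.le
      rw [div_mul_cancel₀ _ hcc.ne'] at h4
      have h5 := mul_le_mul_of_nonneg_left e5 hlampos.le
      have h6 : lam * r = lam * c' - lam * (c' - c) / 2 := by rw [hr]; ring
      nlinarith
  rw [← hV0]
  unfold jac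
  rw [setIntegral_eq_of_subset_of_forall_sdiff_eq_zero hU.measurableSet hVU (f := fun t =>
    η (H t) * (fderiv ℝ H t).det)]
  · refine setIntegral_congr_fun hV.measurableSet fun t ht => ?_
    simp only [det_fderiv_comp hg' hH, hη, Function.comp]
    by_cases htQ : t ∈ Q
    · have h1 := norm_ge_of_close hc3 (hc3Q t htQ) (hclose t htQ.1)
      rw [omega_eq_zero (by linarith)]
      ring
    · have h1 : F t ∈ thickening (κ1 / 2) K1 := by
        by_contra h
        exact htQ ⟨subset_closure ht, h⟩
      obtain ⟨w, hw, hw'⟩ := mem_thickening_iff.1 h1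
      have h2 : ϑ (H t) = 1 := by
        refine hO1ϑ (hκ1O (mem_thickening_iff.2 ⟨w, hw, ?_⟩))
        have := dist_triangle (H t) (F t) w
        rw [dist_eq_norm (H t) (F t)] at this
        linarith [hHF t]
      rw [h2]
      ring
  · intro t ht
    have h2 : ϑ (H t) = 0 := by
      refine hO2ϑ (hκ2O (mem_thickening_iff.2 ⟨F t, ⟨t, ⟨subset_closure ht.1, ht.2⟩, rfl⟩, ?_⟩))
      rw [dist_eq_norm]
      linarith [hHF t]
    simp only [hη, h2, zero_mul]

/-- Composition with an injective linear map preserves non-vanishing of the degree. -/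
theorem deg_linear_ne_zero {F : E → E} (hF : Continuous F) {U : Set E} (hU : IsOpen U)
    (hb : Bornology.IsBounded U) (hfr : ∀ t ∈ frontier U, F t ≠ 0) (A : E →ₗ[ℝ] E)
    (hA : Function.Injective A) (hd : deg F U ≠ 0) : deg (fun t => A (F t)) U ≠ 0 := by
  intro h0
  apply hd
  let e : E ≃ₗ[ℝ] E := LinearEquiv.ofInjectiveEndo A hA
  have hAc : Continuous A := A.continuous_of_finiteDimensional
  have hec : Continuous e.symm := e.symm.toLinearMap.continuous_of_finiteDimensional
  have hee : ∀ v, e.symm (A v) = v := fun v => e.symm_apply_apply v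
  have := deg_comp_eq_zero (F := fun t => A (F t)) (g := e.symm) (hAc.comp hF) hec hU hb hU
    Subset.rfl (c := 0) (fun t ht => norm_pos_iff.2 fun h => hfr t ht (by rw [← hee (F t), h]; simp))
    (fun t _ h => by
      rw [hee] at h
      refine ⟨by simp [h], fun t' ht' h' => ?_⟩
      by_contra hn
      refine hfr t' (by rw [hU.frontier_eq]; exact ⟨ht', hn⟩) ?_
      rw [hA h', h]) h0
  simpa only [hee] using this

end Pool.Agent.Lib.helper5
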