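import Mathlib

/-!
Null Lagrangian property of the Jacobian determinant: for a compactly supported `C^1` map
`H : E → E` the integral of `det DH` vanishes.
-/

open MeasureTheory Set Metric Filter Topology

namespace Pool.Agent.Lib.helper5

variable {E : Type*} [NormedAddCommGroup E] [NormedSpace ℝ E] [FiniteDimensional ℝ E]

lemma det_ne_zero_of_norm_lt (A : E →L[ℝ] E) (hA : ‖A‖ < 1) : (1 + A).det ≠ 0 := by
  have : CompleteSpace E := FiniteDimensional.complete ℝ E
  have hu : IsUnit (1 + A) := by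
    have := (Units.oneSub (-A) (by simpa using hA)).isUnit
    simpa using this
  have hinj : Function.Injective (1 + A : E →L[ℝ] E) := by
    obtain ⟨u, hu⟩ := hu
    intro x y hxy
    have h1 : ((u⁻¹ : (E →L[ℝ] E)ˣ) : E →L[ℝ] E) ((1 + A : E →L[ℝ] E) x) = x := by
      rw [← hu, ← mul_apply_eq_comp, Units.inv_mul]; rfl
    have h2 : ((u⁻¹ : (E →L[ℝ] E)ˣ) : E →L[ℝ] E) ((1 + A : E →L[ℝ] E) y) = y := by
      rw [← hu, ← mul_apply_eq_comp, Units.inv_mul]; rfl
    rw [← h1, ← h2, hxy]
  intro h0
  have hk := LinearMap.bot_lt_ker_of_det_eq_zero (f := ((1 + A : E →L[ℝ] E) : E →ₗ[ℝ] E)) h0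
  have : LinearMap.ker ((1 + A : E →L[ℝ] E) : E →ₗ[ℝ] E) = ⊥ := LinearMap.ker_eq_bot.2 hinj
  rw [this] at hk
  exact lt_irrefl _ hk

lemma det_pos_of_norm_lt (A : E →L[ℝ] E) (hA : ‖A‖ < 1) : 0 < (1 + A).det := by
  by_contra hneg
  push Not at hneg
  have hc : Continuous fun τ : ℝ => (1 + τ • A).det :=
    ContinuousLinearMap.continuous_det.comp (by fun_prop)
  have h0 : (1 + (0 : ℝ) • A).det = 1 := by
    simp [ContinuousLinearMap.det]
  have h1 : (1 + (1 : ℝ) • A).det ≤ 0 := by simpa using hneg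
  have := intermediate_value_Icc' (zero_le_one' ℝ) hc.continuousOn
    (show (0 : ℝ) ∈ Icc ((1 + (1 : ℝ) • A).det) ((1 + (0 : ℝ) • A).det) from ⟨h1, by rw [h0]; norm_num⟩)
  obtain ⟨τ, hτ, hz⟩ := this
  refine det_ne_zero_of_norm_lt (τ • A) ?_ hz
  rw [norm_smul, Real.norm_eq_abs, abs_of_nonneg hτ.1]
  nlinarith [norm_nonneg A, hτ.1, hτ.2]

lemma exists_det_interp (c : ℝ) : ∃ l : ℕ → ℝ, ∀ A : E →L[ℝ] E,
    A.det = ∑ j ∈ Finset.range (Module.finrank ℝ E + 1),
      l j * (((c + j : ℝ)) • (1 : E →L[ℝ] E) + A).det := by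
  classical
  set s := Finset.range (Module.finrank ℝ E + 1)
  set v : ℕ → ℝ := fun j => c + j
  have hv : Set.InjOn v s := fun i _ j _ h => by
    simpa [v] using h
  refine ⟨fun j => (Lagrange.basis s v j).eval 0, fun A => ?_⟩
  set p : Polynomial ℝ := (-(A : E →ₗ[ℝ] E)).charpoly
  have hev : ∀ t : ℝ, p.eval t = (t • (1 : E →L[ℝ] E) + A).det := by
    intro t
    rw [LinearMap.eval_charpoly, ContinuousLinearMap.det]
    congr 1
    ext x
    simp [Algebra.algebraMap_eq_smul_one]
  have hdeg : p.degree < s.card := by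
    have hm : p.Monic := LinearMap.charpoly_monic _
    rw [Polynomial.degree_eq_natDegree hm.ne_zero, LinearMap.charpoly_natDegree]
    simp only [s, Finset.card_range]
    exact_mod_cast Nat.lt_succ_self _
  have h := Lagrange.eq_interpolate hv hdeg
  have h0 := congrArg (Polynomial.eval 0) h
  rw [hev 0, Lagrange.interpolate_apply, Polynomial.eval_finsetSum] at h0
  simp only [zero_smul, zero_add] at h0
  rw [h0]
  refine Finset.sum_congr rfl fun j _ => ?_
  rw [Polynomial.eval_mul, Polynomial.eval_C, hev, mul_comm]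

variable [MeasurableSpace E] [BorelSpace E] (μ : Measure E) [μ.IsAddHaarMeasure]

lemma setIntegral_det_one_add [Nontrivial E] {H : E → E} (hH : ContDiff ℝ 1 H) {B : Set E}
    (hBm : MeasurableSet B) (hB : ∀ x ∉ B, H x = 0) {c : NNReal} (hc : c < 1)
    (hle : ∀ x, ‖fderiv ℝ H x‖₊ ≤ c) :
    ∫ x in B, (1 + fderiv ℝ H x).det ∂μ = μ.real B := by
  have : CompleteSpace E := FiniteDimensional.complete ℝ E
  have hd : Differentiable ℝ H := hH.differentiable (by norm_num)
  have hlip : LipschitzWith c H := lipschitzWith_of_nnnorm_fderiv_le hd hle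
  set f : E → E := fun x => x + H x
  have happ : ApproximatesLinearOn f
      ((ContinuousLinearEquiv.refl ℝ E : E ≃L[ℝ] E) : E →L[ℝ] E) univ c := by
    intro x _ y _
    have := hlip.dist_le_mul x y
    rw [dist_eq_norm, dist_eq_norm] at this
    have e : f x - f y - ((ContinuousLinearEquiv.refl ℝ E : E ≃L[ℝ] E) : E →L[ℝ] E) (x - y)
        = H x - H y := by
      simp only [f, ContinuousLinearEquiv.coe_refl, ContinuousLinearMap.id_apply]; abel
    rw [e]; exact this
  have hN : (c : NNReal) < ‖((ContinuousLinearEquiv.refl ℝ E).symm : E →L[ℝ] E)‖₊⁻¹ := by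
    simpa using hc
  have hinj : Function.Injective f := by
    have := happ.injOn (Or.inr hN)
    exact injOn_univ.1 this
  have hsurj : Function.Surjective f := happ.surjective (Or.inr hN)
  have himg : f '' B = B := by
    ext y
    constructor
    · rintro ⟨x, hx, rfl⟩
      by_contra hy
      have : f (f x) = f x := by simp only [f] at hy ⊢; rw [hB _ hy, add_zero]
      exact hy ((hinj this).symm ▸ hx)
    · intro hy
      obtain ⟨x, rfl⟩ := hsurj y
      refine ⟨x, ?_, rfl⟩
      by_contra hx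
      have : f x = x := by simp only [f]; rw [hB _ hx, add_zero]
      exact hx (this ▸ hy)
  have hder : ∀ x ∈ B, HasFDerivWithinAt f (1 + fderiv ℝ H x) B x := fun x _ =>
    ((hasFDerivAt_id x).add (hd x).hasFDerivAt).hasFDerivWithinAt
  have key := integral_image_eq_integral_abs_det_fderiv_smul μ hBm hder hinj.injOn
    (fun _ => (1 : ℝ))
  rw [himg] at key
  simp only [integral_const, MeasurableSet.univ, measureReal_restrict_apply, univ_inter,
    smul_eq_mul, mul_one] at key
  rw [key]
  refine setIntegral_congr_fun hBm fun x _ => ?_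
  have : ‖fderiv ℝ H x‖ < 1 := lt_of_le_of_lt (show ‖fderiv ℝ H x‖ ≤ (c : ℝ) from hle x)
    (by exact_mod_cast hc)
  simp [abs_of_pos (det_pos_of_norm_lt _ this)]

/-- The Jacobian determinant is a null Lagrangian. -/
theorem integral_det_fderiv_eq_zero [Nontrivial E] {H : E → E} (hH : ContDiff ℝ 1 H)
    (hs : HasCompactSupport H) : ∫ x, (fderiv ℝ H x).det ∂μ = 0 := by
  have hAc : Continuous (fderiv ℝ H) := hH.continuous_fderiv (by norm_num)
  have hAs : HasCompactSupport (fderiv ℝ H) := hs.fderiv ℝ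
  obtain ⟨C, hC⟩ := hAs.exists_bound_of_continuous hAc
  have hC0 : 0 ≤ C := (norm_nonneg _).trans (hC 0)
  set B := tsupport H
  have hBc : IsCompact B := hs
  have hBm : MeasurableSet B := hBc.measurableSet
  have hdet0 : (0 : E →L[ℝ] E).det = 0 := by
    simp [ContinuousLinearMap.det]
  have hout : ∀ x ∉ B, (fderiv ℝ H x).det = 0 := by
    intro x hx
    have : fderiv ℝ H x = 0 := by
      by_contra h
      exact hx (support_fderiv_subset ℝ (Function.mem_support.2 h))
    rw [this, hdet0]
  rw [← setIntegral_eq_integral_of_forall_compl_eq_zero (s := B) hout]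
  obtain ⟨l, hl⟩ := exists_det_interp (E := E) (C + 1)
  have hnode : ∀ j : ℕ, ∫ x in B, (((C + 1 + j : ℝ)) • (1 : E →L[ℝ] E) + fderiv ℝ H x).det ∂μ
      = (((C + 1 + j : ℝ)) • (1 : E →L[ℝ] E) + 0).det * μ.real B := by
    intro j
    set v : ℝ := C + 1 + j with hv
    have hvpos : 0 < v := by positivity
    have hCv : C < v := by
      have : (0 : ℝ) ≤ j := Nat.cast_nonneg j
      linarith
    have hd : Differentiable ℝ H := hH.differentiable (by norm_num)
    have hfd : ∀ x, fderiv ℝ (fun y => v⁻¹ • H y) x = v⁻¹ • fderiv ℝ H x := fun x =>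
      ((hd x).hasFDerivAt.const_smul v⁻¹).fderiv
    have h1 := setIntegral_det_one_add μ (H := fun y => v⁻¹ • H y) (hH.const_smul _) hBm
      (fun x hx => by rw [image_eq_zero_of_notMem_tsupport hx, smul_zero])
      (c := Real.toNNReal (v⁻¹ * C))
      (by
        rw [← NNReal.coe_lt_coe, Real.coe_toNNReal _ (by positivity), NNReal.coe_one,
          inv_mul_lt_iff₀ hvpos]; linarith)
      (fun x => by
        rw [← NNReal.coe_le_coe, hfd, Real.coe_toNNReal _ (by positivity)]
        simp only [coe_nnnorm, norm_smul, Real.norm_eq_abs,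
          abs_of_pos (inv_pos.2 hvpos)]
        exact mul_le_mul_of_nonneg_left (hC x) (inv_pos.2 hvpos).le)
    have h2 : ∀ A : E →L[ℝ] E, (v • (1 : E →L[ℝ] E) + A).det
        = v ^ Module.finrank ℝ E * (1 + v⁻¹ • A).det := by
      intro A
      have : v • (1 : E →L[ℝ] E) + A = v • (1 + v⁻¹ • A) := by
        rw [smul_add, smul_smul, mul_inv_cancel₀ hvpos.ne', one_smul]
      rw [this, ContinuousLinearMap.det, ContinuousLinearMap.det, ← LinearMap.det_smul]
      rfl
    simp only [hfd] at h1
    simp only [h2]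
    rw [integral_const_mul, h1]
    simp [ContinuousLinearMap.det]
  have hint : ∀ j : ℕ, IntegrableOn
      (fun x => (((C + 1 + j : ℝ)) • (1 : E →L[ℝ] E) + fderiv ℝ H x).det) B μ := fun j =>
    (ContinuousLinearMap.continuous_det.comp
      (continuous_const.add hAc)).continuousOn.integrableOn_compact hBc
  calc ∫ x in B, (fderiv ℝ H x).det ∂μ
      = ∫ x in B, ∑ j ∈ Finset.range (Module.finrank ℝ E + 1),
          l j * (((C + 1 + j : ℝ)) • (1 : E →L[ℝ] E) + fderiv ℝ H x).det ∂μ := by
        refine setIntegral_congr_fun hBm fun x _ => hl _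
    _ = ∑ j ∈ Finset.range (Module.finrank ℝ E + 1),
          l j * (((C + 1 + j : ℝ)) • (1 : E →L[ℝ] E) + 0).det * μ.real B := by
        rw [integral_finsetSum _ fun j _ => (hint j).const_mul _]
        refine Finset.sum_congr rfl fun j _ => ?_
        rw [integral_const_mul, hnode, mul_assoc]
    _ = 0 := by
        rw [← Finset.sum_mul, ← hl, hdet0, zero_mul]

end Pool.Agent.Lib.helper5
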